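import Pool.Agent.H727R4.CLT.Asm2
import Pool.Agent.H727R4.CLT.Cmp
import Pool.Agent.H727R4.CLT.T_Baire
import Pool.Agent.H727R4.CLT.T_Blob
import Pool.Agent.H727R4.CLT.T_C2
import Pool.Agent.H727R4.CLT.T_Deg
import Pool.Agent.H727R4.CLT.T_Dom
import Pool.Agent.H727R4.CLT.T_End
import Pool.Agent.H727R4.CLT.T_Ge2
import Pool.Agent.H727R4.CLT.T_Gram
import Pool.Agent.H727R4.CLT.T_Le2
import Pool.Agent.H727R4.CLT.T_ON
import Pool.Agent.H727R4.CLT.T_Pos
import Pool.Agent.H727R4.CLT.T_Remez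
import Pool.Agent.H727R4.CLT.T_Trace
import Pool.Agent.H727R4.CLT.T_Var
import Pool.Agent.H727R4.CLT.T_Zero
import Pool.Agent.H727R4.CLT.TaskSmear
import Pool.Agent.H364R3.CLT.TaskSplit
import Pool.Agent.H377R4.CLT.Band
import Pool.Agent.H643R3.CLT.Grow
import Pool.Agent.H779R5.CLT.Out

set_option autoImplicit false
open MeasureTheory ProbabilityTheory Filter Topology Set Polynomial

namespace Pool.Agent.Results.MP_f6b137_pr.NoCentralLimit

/-- `p` is the sequence of orthonormal polynomials of `ν`: `p k` has degree exactly `k` and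
positive leading coefficient, and the integral of `p j * p k` is the Kronecker delta. -/
def IsOrthonormalSeq (ν : Measure ℝ) (p : ℕ → ℝ[X]) : Prop :=
  (∀ k, (p k).natDegree = k ∧ 0 < (p k).leadingCoeff) ∧
    ∀ j k, ∫ x, (p j).eval x * (p k).eval x ∂ν = if j = k then 1 else 0

/-- The number of (distinct) real zeros of `P_n = ∑ k ≤ n, a k * p k`. -/
noncomputable def realZeroCount {Ω : Type} (p : ℕ → ℝ[X]) (a : ℕ → Ω → ℝ) (n : ℕ) (ω : Ω) : ℝ :=
  ((∑ k ∈ Finset.range (n + 1), C (a k ω) * p k).roots.toFinset.card : ℝ)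

/-- There is a finite Borel measure on the line, absolutely continuous with support `[0, 1]`, and
`c > 0` such that for its orthonormal polynomials and any i.i.d. standard Gaussian coefficients the
variance of the number of real zeros of `P_n` is at least `c n²` for infinitely many `n`, and the
normalised number of real zeros does not converge in distribution to a standard Gaussian. -/
theorem result : ∃ ν : Measure ℝ, IsFiniteMeasure ν ∧ ν ≪ volume ∧ ν.support = Icc 0 1 ∧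
    (∃ p : ℕ → ℝ[X], IsOrthonormalSeq ν p) ∧
    ∃ c : ℝ, 0 < c ∧ ∀ p : ℕ → ℝ[X], IsOrthonormalSeq ν p →
      ∀ (Ω : Type) (_ : MeasurableSpace Ω) (μ : Measure Ω) (_ : IsProbabilityMeasure μ)
        (a : ℕ → Ω → ℝ), (∀ k, HasLaw (a k) (gaussianReal 0 1) μ) → iIndepFun a μ →
        (∀ n0 : ℕ, ∃ n : ℕ, n0 ≤ n ∧ c * (n : ℝ) ^ 2 ≤ Var[realZeroCount p a n; μ]) ∧
        ¬ ∀ t : ℝ, Tendsto (fun n : ℕ => μ.real {ω | (realZeroCount p a n ω -
            μ[realZeroCount p a n]) / √(Var[realZeroCount p a n; μ]) ≤ t}) atTop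
          (𝓝 ((gaussianReal 0 1).real (Iic t))) :=
  Pool.Agent.H727R4.CLT.final Pool.Agent.H727R4.CLT.Le2.taskLe2 Pool.Agent.H727R4.CLT.Ge2.taskGe2
    Pool.Agent.H727R4.CLT.Zero.taskZero Pool.Agent.H364R3.CLT.taskSplit
    Pool.Agent.H377R4.CLT.taskBand Pool.Agent.H727R4.CLT.taskOut Pool.Agent.H727R4.CLT.taskCmp
    Pool.Agent.H727R4.CLT.Var.taskVar Pool.Agent.H727R4.CLT.Remez.taskRemez
    Pool.Agent.H727R4.CLT.Trace.taskTrace Pool.Agent.H727R4.CLT.Blob.taskBlob
    Pool.Agent.H727R4.CLT.Deg.taskDeg Pool.Agent.H727R4.CLT.Dom.taskDom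
    (Pool.Agent.H727R4.CLT.C2.taskC2 Pool.Agent.H727R4.CLT.Dom.taskDom)
    Pool.Agent.H643R3.CLT.taskGrow Pool.Agent.H727R4.CLT.Pos.taskPos
    Pool.Agent.H727R4.CLT.ON.taskON Pool.Agent.H727R4.CLT.Gram.taskGram
    Pool.Agent.H727R4.CLT.taskSmear Pool.Agent.H727R4.CLT.Baire.taskBaire
    Pool.Agent.H727R4.CLT.End.taskEnd

end Pool.Agent.Results.MP_f6b137_pr.NoCentralLimit
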